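import Pool.Agent.H40.KO.Final

set_option autoImplicit false

/-- For all `k ≥ 2` and `n ≥ exp (√k)` there are `n` unit vectors such that any `k` of them contain
an orthogonal pair and whose sum has norm at least `n ^ (1 - 50 log k / √k)`. -/
theorem Pool.Agent.Results.MP_ac2766_co.SquareRootExponent.result :
    ∀ k n : ℕ, 2 ≤ k → Real.exp (√(k : ℝ)) ≤ n →
      ∃ (d : ℕ) (v : Fin n → EuclideanSpace ℝ (Fin d)), (∀ i, ‖v i‖ = 1) ∧
        (∀ K : Finset (Fin n), K.card = k → ∃ i ∈ K, ∃ j ∈ K, i ≠ j ∧ inner ℝ (v i) (v j) = 0) ∧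
        (n : ℝ) ^ (1 - 50 * Real.log k / √(k : ℝ)) ≤ ‖∑ i, v i‖ :=
  fun k n hk hn => Pool.Agent.H40KO.main k n hk hn
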